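import Pool.Agent.helper3.BN.Sharp

/-!
# MP_058b80_co: every matroid with at least two bases has the Borsuk property

`M` is a finite matroid with `n = |E|` elements, rank `r` and `c` connected components, and `2 δ` is the diameter of the set of
its bases. If `M` has at least two bases, then its Borsuk number is at most `n - c + 1` and at most `max(r, n - r) - δ + 2`.
-/

set_option autoImplicit false

namespace Pool.Agent.Results.MP_058b80_co.BorsukNumber

open Pool.Agent.helper3.BN

/-- Let `B₀ ≠ B₁` be bases of the finite matroid `M`, `n = |E|`, `r = |B₀|` the rank, `c` the number of connected components and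
`2 δ` the diameter of the set of bases for the distance `|B ∆ B'|`. Then `f(M) ≤ n - c + 1` and `f(M) ≤ max(r, n - r) + 2 - δ`. -/
theorem result {α : Type*} [Finite α] (M : Matroid α) (B₀ B₁ : Set α) (h₀ : M.IsBase B₀) (h₁ : M.IsBase B₁) (hne : B₀ ≠ B₁) :
    borsukNumber M ≤
      ((min (M.E.ncard - (components M).ncard + 1) (max B₀.ncard (M.E.ncard - B₀.ncard) + 2 - diam M / 2) : ℕ) : ℕ∞) :=
  main_sharp M B₀ B₁ h₀ h₁ hne

end Pool.Agent.Results.MP_058b80_co.BorsukNumber
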